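import Mathlib
import Pool.Agent.H204R3.CM.Nondeg
import Pool.Agent.H868R3.GPC.Key

/-!
# Coefficients of rational forms and the Hodge condition
-/

set_option linter.unusedSectionVars false
set_option linter.unusedVariables false

namespace Pool.Agent.H868R3.GPI

open NumberField Pool.Agent.H204R3.CM Pool.Agent.H868R3.GPC

noncomputable section

variable {ι : Type} [Fintype ι] {J : Type} [Fintype J] {E : ι → Type} [∀ i, Field (E i)]
  [∀ i, NumberField (E i)] {κ : Type} [Fintype κ] [DecidableEq κ] (t : J → ι)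

theorem coeff_unique (a a' : (κ → XX E t ℂ) → ℂ)
    (h : ∀ v : κ → (∀ j, E (t j)), ∑ I, a I * ∏ l, chi E t ℂ (v l) (I l) =
      ∑ I, a' I * ∏ l, chi E t ℂ (v l) (I l)) : a = a' := by
  classical
  have h1 : formOf t a = formOf t a' := by
    refine multilinear_ext_span _ _ _ (span_chi t) ?_
    intro v hv
    choose w hw using hv
    have hv' : v = fun l => chi E t ℂ (w l) := funext fun l => (hw l).symm
    rw [hv', formOf_apply, formOf_apply]
    exact h w
  funext I
  have h2 := DFunLike.congr_fun h1 (fun l => Pi.single (I l) (1 : ℂ))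
  rw [formOf_single, formOf_single, Finset.prod_const_one, mul_one, mul_one] at h2
  exact h2

/-- The action of an automorphism of the complex numbers on the coordinates. -/
def act (σ : ℂ ≃+* ℂ) (x : XX E t ℂ) : XX E t ℂ := ⟨x.1, (σ : ℂ →+* ℂ).comp x.2⟩

theorem act_symm (σ : ℂ ≃+* ℂ) (x : XX E t ℂ) : act t σ (act t σ.symm x) = x := by
  obtain ⟨i, φ⟩ := x
  unfold act
  congr 1
  ext z
  exact σ.apply_symm_apply _

theorem symm_act (σ : ℂ ≃+* ℂ) (x : XX E t ℂ) : act t σ.symm (act t σ x) = x := by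
  obtain ⟨i, φ⟩ := x
  unfold act
  congr 1
  ext z
  exact σ.symm_apply_apply _

theorem exists_coeff (f : MultilinearMap ℚ (fun _ : κ => ∀ j, E (t j)) ℚ) :
    ∃ a : (κ → XX E t ℂ) → ℂ, (∀ I, IsAlgebraic ℚ (a I)) ∧
      (∀ v : κ → (∀ j, E (t j)), ((f v : ℚ) : ℂ) = ∑ I, a I * ∏ l, chi E t ℂ (v l) (I l)) ∧
      ∀ I (σ : ℂ ≃+* ℂ), a I ≠ 0 → a (fun l => act t σ (I l)) ≠ 0 := by
  classical
  obtain ⟨L, hNF, hG, j, hj⟩ := exists_galois E
  obtain ⟨c, hc⟩ := form_coeff (E := E) t j hj f
  let e : (κ → XX E t L) ≃ (κ → XX E t ℂ) := Equiv.arrowCongr (Equiv.refl κ) (xEquiv t j hj)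
  have hexp : ∀ v : κ → (∀ j, E (t j)), ((f v : ℚ) : ℂ) =
      ∑ I, j (c (e.symm I)) * ∏ l, chi E t ℂ (v l) (I l) := by
    intro v
    have h2 := congrArg j (hc v)
    rw [map_ratCast] at h2
    rw [h2, map_sum]
    refine Fintype.sum_equiv e _ _ fun I => ?_
    rw [map_mul, map_prod, Equiv.symm_apply_apply]
    rfl
  refine ⟨fun I => j (c (e.symm I)), fun I => ?_, hexp, fun I σ hI => ?_⟩
  · have h1 : IsAlgebraic ℚ (c (e.symm I)) := Algebra.IsAlgebraic.isAlgebraic _
    exact h1.algHom (RingHom.equivRatAlgHom L ℂ j)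
  · let s : (κ → XX E t ℂ) ≃ (κ → XX E t ℂ) :=
      { toFun := fun I l => act t σ (I l)
        invFun := fun I l => act t σ.symm (I l)
        left_inv := fun I => funext fun l => symm_act t σ (I l)
        right_inv := fun I => funext fun l => act_symm t σ (I l) }
    have h1 : ∀ v : κ → (∀ j, E (t j)), ((f v : ℚ) : ℂ) =
        ∑ I, σ (j (c (e.symm (s.symm I)))) * ∏ l, chi E t ℂ (v l) (I l) := by
      intro v
      have h2 := congrArg σ (hexp v)
      rw [map_ratCast] at h2
      rw [h2, map_sum]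
      refine Fintype.sum_equiv s _ _ fun I => ?_
      rw [map_mul, map_prod, Equiv.symm_apply_apply]
      rfl
    have h2 := coeff_unique t _ _ (fun v => (hexp v).symm.trans (h1 v))
    have h3 := congrFun h2 (s I)
    intro h0
    apply hI
    have h4 : σ (j (c (e.symm (s.symm (s I))))) = 0 := h3.symm.trans h0
    rw [Equiv.symm_apply_apply, map_eq_zero] at h4
    exact h4

variable {Φ : ∀ i, Set (E i →+* ℂ)} (hΦ : ∀ i, IsCMType (Φ i))

open Classical in
include hΦ in
/-- A form all of whose eigencomponents are of type `(d, d)` is a Hodge class. -/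
theorem hodge_of_balanced (f : (∀ j, E (t j)) [⋀^κ]→ₗ[ℚ] ℚ) (a : (κ → XX E t ℂ) → ℂ)
    (ha : ∀ v : κ → (∀ j, E (t j)), ((f v : ℚ) : ℂ) = ∑ I, a I * ∏ l, chi E t ℂ (v l) (I l))
    (hbal : ∀ I, a I ≠ 0 → ∑ l, (if (I l).2 ∈ Φ (t (I l).1) then (1 : ℤ) else -1) = 0) :
    IsHodge (per Φ t) f := by
  refine ⟨Complex.reLm.compMultilinearMap (((formOf t a).restrictScalars ℝ).compLinearMap
    (fun _ => theta t hΦ)), fun v => ?_, fun z hz u => ?_⟩
  · change (formOf t a (fun l => theta t hΦ (per Φ t (v l)))).re = f v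
    rw [formOf_apply]
    simp only [theta_per]
    rw [← ha v, ← Complex.ofReal_ratCast, Complex.ofReal_re]
  · change (formOf t a (fun l => theta t hΦ (z • u l))).re =
      (formOf t a (fun l => theta t hΦ (u l))).re
    congr 1
    rw [formOf_apply, formOf_apply]
    refine Finset.sum_congr rfl fun I _ => ?_
    by_cases hI : a I = 0
    · rw [hI, zero_mul, zero_mul]
    · congr 1
      have hz0 : z ≠ 0 := by
        rintro rfl
        rw [norm_zero] at hz
        exact zero_ne_one hz
      have hzc : starRingEnd ℂ z = z⁻¹ := by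
        have h2 : z * starRingEnd ℂ z = 1 := by
          rw [Complex.mul_conj, Complex.normSq_eq_norm_sq, hz]
          norm_num
        exact eq_inv_of_mul_eq_one_right h2
      have h1 : ∀ l, theta t hΦ (z • u l) (I l) =
          z ^ (if (I l).2 ∈ Φ (t (I l).1) then (1 : ℤ) else -1) * theta t hΦ (u l) (I l) := by
        intro l
        rw [theta_smul]
        change dz t Φ z (I l) * _ = _
        congr 1
        unfold dz
        by_cases h4 : (I l).2 ∈ Φ (t (I l).1)
        · rw [if_pos h4, if_pos h4, zpow_one]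
        · rw [if_neg h4, if_neg h4, hzc, zpow_neg_one]
      rw [Finset.prod_congr rfl (fun l _ => h1 l), Finset.prod_mul_distrib, ← zpow_sum hz0,
        hbal I hI, zpow_zero, one_mul]

end

end Pool.Agent.H868R3.GPI
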