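import Mathlib
import Pool.Agent.H868R3.GPI.Coef

/-!
# Families of CM fields with a multiplicity free antisymmetric Galois module
-/

set_option linter.unusedSectionVars false
set_option linter.unusedVariables false

namespace Pool.Agent.H868R3.GPI

open NumberField Pool.Agent.H204R3.CM Pool.Agent.H868R3.GPC

noncomputable section

/-- The complex embeddings of the fields `E i`. -/
abbrev Emb {ι : Type} (E : ι → Type) [∀ i, Field (E i)] : Type := Σ i, (E i →+* ℂ)

/-- The conjugate embedding. -/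
def bar {ι : Type} {E : ι → Type} [∀ i, Field (E i)] (x : Emb E) : Emb E :=
  ⟨x.1, ComplexEmbedding.conjugate x.2⟩

/-- The action of the automorphisms of the complex numbers on the embeddings. -/
def gal {ι : Type} {E : ι → Type} [∀ i, Field (E i)] (σ : ℂ ≃+* ℂ) (x : Emb E) : Emb E :=
  ⟨x.1, (σ : ℂ →+* ℂ).comp x.2⟩

/-- The antisymmetric functions on the embeddings. -/
def Anti {ι : Type} {E : ι → Type} [∀ i, Field (E i)] (f : Emb E → ℚ) : Prop :=
  ∀ x, f (bar x) = -f x

/-- The spaces of functions stable under the automorphisms of the complex numbers. -/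
def Stable {ι : Type} {E : ι → Type} [∀ i, Field (E i)] (V : Submodule ℚ (Emb E → ℚ)) : Prop :=
  ∀ f ∈ V, ∀ σ : ℂ ≃+* ℂ, (fun x => f (gal σ x)) ∈ V

/-- Let `V i` be the Galois module of the antisymmetric rational functions on the complex
embeddings of `E i`. Every nonzero stable subspace of the direct sum of the `V i` contains one of
the `V i` (equivalently: the Galois modules `V i` are irreducible and pairwise not isomorphic). -/
def MultFree {ι : Type} (E : ι → Type) [∀ i, Field (E i)] : Prop :=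
  ∀ V : Submodule ℚ (Emb E → ℚ), (∀ f ∈ V, Anti f) → Stable V → V ≠ ⊥ →
    ∃ i, ∀ f : Emb E → ℚ, Anti f → (∀ x, x.1 ≠ i → f x = 0) → f ∈ V

variable {ι : Type} [Fintype ι] {E : ι → Type} [∀ i, Field (E i)] [∀ i, NumberField (E i)]

theorem bar_bar (x : Emb E) : bar (bar x) = x := by
  obtain ⟨i, φ⟩ := x
  unfold bar
  congr 1
  exact star_involutive φ

theorem gal_symm (σ : ℂ ≃+* ℂ) (x : Emb E) : gal σ (gal σ.symm x) = x := by
  obtain ⟨i, φ⟩ := x
  unfold gal
  congr 1
  ext z
  exact σ.apply_symm_apply _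

theorem symm_gal (σ : ℂ ≃+* ℂ) (x : Emb E) : gal σ.symm (gal σ x) = x := by
  obtain ⟨i, φ⟩ := x
  unfold gal
  congr 1
  ext z
  exact σ.symm_apply_apply _

/-- The action as an equivalence. -/
def galE (σ : ℂ ≃+* ℂ) : Emb E ≃ Emb E := ⟨gal σ, gal σ.symm, symm_gal σ, gal_symm σ⟩

variable [∀ i, IsCMField (E i)]

theorem gal_bar (σ : ℂ ≃+* ℂ) (x : Emb E) : gal σ (bar x) = bar (gal σ x) := by
  obtain ⟨i, φ⟩ := x
  unfold gal bar
  congr 1
  ext z
  change σ ((ComplexEmbedding.conjugate φ) z) =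
    (ComplexEmbedding.conjugate ((σ : ℂ →+* ℂ).comp φ)) z
  rw [ComplexEmbedding.conjugate_coe_eq, ComplexEmbedding.conjugate_coe_eq]
  have h1 := IsCMField.complexEmbedding_complexConj (E i) φ z
  have h2 := IsCMField.complexEmbedding_complexConj (E i) ((σ : ℂ →+* ℂ).comp φ) z
  rw [← h1, ← h2]
  rfl

theorem bar_ne (x : Emb E) : bar x ≠ x := by
  obtain ⟨i, φ⟩ := x
  intro h
  have h1 : ComplexEmbedding.conjugate φ = φ := eq_of_heq (Sigma.mk.inj_iff.1 h).2
  apply IsCMField.complexConj_ne_one (E i)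
  ext z
  apply φ.injective
  have h2 := IsCMField.complexEmbedding_complexConj (E i) φ z
  rw [h2]
  have h3 := RingHom.congr_fun h1 z
  rw [ComplexEmbedding.conjugate_coe_eq] at h3
  exact h3

/-- The relations between the periods. -/
def relI (p : Emb E → ℂ) (hp : ∀ x, p x ≠ 0) : Submodule ℚ (Emb E → ℚ) where
  carrier := {d | Anti d ∧ ∃ N : ℕ, N ≠ 0 ∧ ∃ e : Emb E → ℤ, (∀ x, (N : ℚ) * d x = e x) ∧
    ∀ σ : ℂ ≃+* ℂ, IsAlgebraic ℚ (∏ x, p (gal σ x) ^ e x)}
  zero_mem' := by
    refine ⟨fun x => by simp, 1, one_ne_zero, fun _ => 0, fun x => by simp, fun σ => ?_⟩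
    simp only [zpow_zero, Finset.prod_const_one]
    exact isAlgebraic_one
  add_mem' := by
    rintro d d' ⟨h1, N, hN, e, h2, h3⟩ ⟨h1', N', hN', e', h2', h3'⟩
    refine ⟨fun x => by rw [Pi.add_apply, Pi.add_apply, h1 x, h1' x]; ring, N * N',
      mul_ne_zero hN hN', fun x => N' * e x + N * e' x, fun x => ?_, fun σ => ?_⟩
    · rw [Pi.add_apply]
      push_cast
      rw [← h2, ← h2']
      ring
    · have h4 : ∏ x, p (gal σ x) ^ (N' * e x + N * e' x) =
          (∏ x, p (gal σ x) ^ e x) ^ (N' : ℤ) * (∏ x, p (gal σ x) ^ e' x) ^ (N : ℤ) := by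
        rw [← Finset.prod_zpow, ← Finset.prod_zpow, ← Finset.prod_mul_distrib]
        refine Finset.prod_congr rfl fun x _ => ?_
        rw [zpow_add₀ (hp _), mul_comm (N' : ℤ), mul_comm (N : ℤ), zpow_mul, zpow_mul]
      rw [h4]
      exact (isAlg_zpow (h3 σ) _).mul (isAlg_zpow (h3' σ) _)
  smul_mem' := by
    rintro q d ⟨h1, N, hN, e, h2, h3⟩
    refine ⟨fun x => by rw [Pi.smul_apply, Pi.smul_apply, h1 x, smul_neg], N * q.den,
      mul_ne_zero hN q.den_ne_zero, fun x => e x * q.num, fun x => ?_, fun σ => ?_⟩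
    · have h4 : (q.den : ℚ) * q = q.num := by
        rw [mul_comm]
        exact Rat.mul_den_eq_num q
      rw [Pi.smul_apply, smul_eq_mul]
      push_cast
      rw [← h2, ← h4]
      ring
    · simp only [zpow_mul]
      rw [Finset.prod_zpow]
      exact isAlg_zpow (h3 σ) _

theorem relI_stable (p : Emb E → ℂ) (hp : ∀ x, p x ≠ 0) : Stable (relI p hp) := by
  rintro d ⟨h1, N, hN, e, h2, h3⟩ σ
  refine ⟨fun x => ?_, N, hN, fun x => e (gal σ x), fun x => h2 _, fun τ => ?_⟩
  · change d (gal σ (bar x)) = -d (gal σ x)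
    rw [gal_bar, h1]
  · have h4 := h3 (σ.symm.trans τ)
    have h5 : ∏ x, p (gal τ x) ^ e (gal σ x) = ∏ x, p (gal (σ.symm.trans τ) x) ^ e x := by
      refine Fintype.prod_equiv (galE σ) _ _ fun x => ?_
      change p (gal τ x) ^ e (gal σ x) = p (gal (σ.symm.trans τ) (gal σ x)) ^ e (gal σ x)
      have h6 : gal (σ.symm.trans τ) (gal σ x) = gal τ x := by
        have h7 : gal (σ.symm.trans τ) (gal σ x) = gal τ (gal σ.symm (gal σ x)) := rfl
        rw [h7, symm_gal]
      rw [h6]
    change IsAlgebraic ℚ (∏ x, p (gal τ x) ^ e (gal σ x))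
    rw [h5]
    exact h4

theorem relI_eq_bot (hmf : MultFree E) (p : Emb E → ℂ) (hp : ∀ x, p x ≠ 0)
    (htr : ∀ i, ∃ φ : E i →+* ℂ, ¬ IsAlgebraic ℚ (p ⟨i, φ⟩ / p (bar ⟨i, φ⟩))) :
    relI p hp = ⊥ := by
  classical
  by_contra hne
  obtain ⟨i, hi⟩ := hmf (relI p hp) (fun f hf => hf.1) (relI_stable p hp) hne
  obtain ⟨φ, hφ⟩ := htr i
  apply hφ
  set y : Emb E := ⟨i, φ⟩ with hy
  obtain ⟨-, N, hN, e, h2, h3⟩ := hi
    (fun x => (if x = y then 1 else 0) - (if x = bar y then 1 else 0)) (fun x => by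
      have h1 : bar x = y ↔ x = bar y := by
        constructor
        · intro h
          rw [← h, bar_bar]
        · intro h
          rw [h, bar_bar]
      have h2 : bar x = bar y ↔ x = y := by
        constructor
        · intro h
          rw [← bar_bar x, h, bar_bar]
        · rintro rfl
          rfl
      simp only [h1, h2]
      ring) (fun x hx => by
      have h1 : x ≠ y := by
        rintro rfl
        exact hx rfl
      have h2 : x ≠ bar y := by
        rintro rfl
        exact hx rfl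
      rw [if_neg h1, if_neg h2, sub_zero])
  have h4 := h3 (RingEquiv.refl ℂ)
  have h5 : ∏ x, p (gal (RingEquiv.refl ℂ) x) ^ e x = (p y / p (bar y)) ^ N := by
    have h6 : ∀ x : Emb E, gal (RingEquiv.refl ℂ) x = x := fun x => rfl
    have h7 : ∀ x, e x = (if x = y then (N : ℤ) else 0) + (if x = bar y then -(N : ℤ) else 0) := by
      intro x
      have h8 := h2 x
      have h9 : ((e x : ℤ) : ℚ) =
          (((if x = y then (N : ℤ) else 0) + (if x = bar y then -(N : ℤ) else 0) : ℤ) : ℚ) := by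
        rw [← h8]
        push_cast
        split_ifs <;> ring
      exact_mod_cast h9
    have h8 : ∀ x, p (gal (RingEquiv.refl ℂ) x) ^ e x =
        (if x = y then p y ^ N else 1) * (if x = bar y then (p (bar y) ^ N)⁻¹ else 1) := by
      intro x
      rw [h6, h7, zpow_add₀ (hp _)]
      congr 1
      · by_cases h : x = y
        · rw [if_pos h, if_pos h, h, zpow_natCast]
        · rw [if_neg h, if_neg h, zpow_zero]
      · by_cases h : x = bar y
        · rw [if_pos h, if_pos h, h, zpow_neg, zpow_natCast]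
        · rw [if_neg h, if_neg h, zpow_zero]
    rw [Finset.prod_congr rfl (fun x _ => h8 x), Finset.prod_mul_distrib, Finset.prod_ite_eq',
      Finset.prod_ite_eq', if_pos (Finset.mem_univ _), if_pos (Finset.mem_univ _), div_pow,
      div_eq_mul_inv]
  rw [h5] at h4
  exact h4.of_pow (Nat.pos_of_ne_zero hN)

/-- Words whose period monomials are algebraic multiples of `(2πi)^k` are symmetric. -/
theorem symmetric_word (hmf : MultFree E) (p : Emb E → ℂ) (hp : ∀ x, p x ≠ 0)
    (hleg : ∀ x, IsAlgebraic ℚ ((p x * p (bar x)) / (2 * Real.pi * Complex.I)))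
    (htr : ∀ i, ∃ φ : E i →+* ℂ, ¬ IsAlgebraic ℚ (p ⟨i, φ⟩ / p (bar ⟨i, φ⟩)))
    {κ : Type} [Fintype κ] (k : ℕ) (hk : Fintype.card κ = 2 * k) (x : κ → Emb E)
    (halg : ∀ σ : ℂ ≃+* ℂ, IsAlgebraic ℚ ((∏ l, p (gal σ (x l))) /
      (2 * Real.pi * Complex.I) ^ k)) (g : Emb E → ℤ) :
    ∑ l, (g (x l) - g (bar (x l))) = 0 := by
  classical
  have hpi : (2 * Real.pi * Complex.I : ℂ) ≠ 0 := Complex.two_pi_I_ne_zero
  let e : Emb E → ℤ := fun y => ∑ l, ((if y = x l then 1 else 0) - (if y = bar (x l) then 1 else 0))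
  have hbar : ∀ y l, (bar y = x l ↔ y = bar (x l)) := by
    intro y l
    constructor
    · intro h
      rw [← h, bar_bar]
    · rintro rfl
      rw [bar_bar]
  have hbar' : ∀ y l, (bar y = bar (x l) ↔ y = x l) := by
    intro y l
    constructor
    · intro h
      rw [← bar_bar y, h, bar_bar]
    · rintro rfl
      rfl
  have hmem : (fun y => (e y : ℚ)) ∈ relI p hp := by
    refine ⟨fun y => ?_, 1, one_ne_zero, e, fun y => by rw [Nat.cast_one, one_mul], fun σ => ?_⟩
    · change ((e (bar y) : ℤ) : ℚ) = -((e y : ℤ) : ℚ)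
      rw [← Int.cast_neg]
      congr 1
      simp only [e, hbar, hbar', ← Finset.sum_neg_distrib, neg_sub]
    · have h1 : ∏ y, p (gal σ y) ^ e y =
          ∏ l, (p (gal σ (x l)) * (p (gal σ (bar (x l))))⁻¹) := by
        have h2 : ∀ y, p (gal σ y) ^ e y =
            ∏ l, ((if y = x l then p (gal σ (x l)) else 1) *
              (if y = bar (x l) then (p (gal σ (bar (x l))))⁻¹ else 1)) := by
          intro y
          simp only [e]
          rw [zpow_sum (hp _)]
          refine Finset.prod_congr rfl fun l _ => ?_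
          rw [zpow_sub₀ (hp _), div_eq_mul_inv]
          congr 1
          · by_cases h : y = x l
            · rw [if_pos h, if_pos h, zpow_one, h]
            · rw [if_neg h, if_neg h, zpow_zero]
          · by_cases h : y = bar (x l)
            · rw [if_pos h, if_pos h, zpow_one, h]
            · rw [if_neg h, if_neg h, zpow_zero, inv_one]
        rw [Finset.prod_congr rfl (fun y _ => h2 y), Finset.prod_comm]
        refine Finset.prod_congr rfl fun l _ => ?_
        rw [Finset.prod_mul_distrib, Finset.prod_ite_eq', Finset.prod_ite_eq',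
          if_pos (Finset.mem_univ _), if_pos (Finset.mem_univ _)]
      have h2 : ∏ l, (p (gal σ (x l)) * (p (gal σ (bar (x l))))⁻¹) =
          ((∏ l, p (gal σ (x l))) / (2 * Real.pi * Complex.I) ^ k) ^ 2 *
            (∏ l, ((p (gal σ (x l)) * p (bar (gal σ (x l)))) / (2 * Real.pi * Complex.I)))⁻¹ := by
        rw [Finset.prod_div_distrib, Finset.prod_mul_distrib, Finset.prod_mul_distrib,
          Finset.prod_const, Finset.card_univ, hk, Finset.prod_inv_distrib]
        have h3 : ∏ l, p (gal σ (x l)) ≠ 0 := Finset.prod_ne_zero_iff.2 fun l _ => hp _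
        have h4 : ∏ l, p (bar (gal σ (x l))) ≠ 0 := Finset.prod_ne_zero_iff.2 fun l _ => hp _
        have h5 : ∏ l, p (gal σ (bar (x l))) = ∏ l, p (bar (gal σ (x l))) :=
          Finset.prod_congr rfl fun l _ => by rw [gal_bar]
        rw [h5, mul_comm 2 k, pow_mul]
        field_simp
      rw [h1, h2]
      exact ((halg σ).pow 2).mul (isAlg_prod _ _ fun l _ => hleg _).inv
  rw [relI_eq_bot hmf p hp htr, Submodule.mem_bot] at hmem
  have he : ∀ y, e y = 0 := by
    intro y
    have h1 := congrFun hmem y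
    have h2 : ((e y : ℤ) : ℚ) = 0 := h1
    exact_mod_cast h2
  have h1 : ∑ y, e y * g y = ∑ l, (g (x l) - g (bar (x l))) := by
    simp only [e, Finset.sum_mul]
    rw [Finset.sum_comm]
    refine Finset.sum_congr rfl fun l _ => ?_
    simp only [sub_mul, ite_mul, one_mul, zero_mul, Finset.sum_sub_distrib]
    rw [Finset.sum_ite_eq', Finset.sum_ite_eq', if_pos (Finset.mem_univ _),
      if_pos (Finset.mem_univ _)]
  rw [← h1]
  simp only [he, zero_mul, Finset.sum_const_zero]

end

end Pool.Agent.H868R3.GPI
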