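import Mathlib
import Pool.Agent.H868R3.GPI.Irr

/-!
# De Rham-Betti classes on products of powers of abelian varieties of CM type, when the
antisymmetric Galois module is multiplicity free
-/

set_option linter.unusedSectionVars false
set_option linter.unusedVariables false

namespace Pool.Agent.H868R3.GPI

open NumberField Pool.Agent.H204R3.CM Pool.Agent.H868R3.GPC

noncomputable section

variable {ι : Type} [Fintype ι] {E : ι → Type} [∀ i, Field (E i)] [∀ i, NumberField (E i)]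
  [∀ i, IsCMField (E i)] {Φ : ∀ i, Set (E i →+* ℂ)} (hΦ : ∀ i, IsCMType (Φ i))

/-- The sign of an embedding. -/
def sgn (Φ : ∀ i, Set (E i →+* ℂ)) (x : Emb E) : ℤ := by
  classical
  exact if x.2 ∈ Φ x.1 then 1 else -1

include hΦ in
theorem sgn_bar (x : Emb E) : sgn Φ (bar x) = -sgn Φ x := by
  classical
  unfold sgn bar
  by_cases h : x.2 ∈ Φ x.1
  · rw [if_pos h, if_neg ((hΦ x.1 x.2).1 h)]
  · have h2 : ComplexEmbedding.conjugate x.2 ∈ Φ x.1 := by
      by_contra h3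
      exact h ((hΦ x.1 x.2).2 h3)
    rw [if_neg h, if_pos h2, neg_neg]

include hΦ in
/-- The family of CM types is nondegenerate. -/
theorem nondeg_of_multFree (hmf : MultFree E) {L : Type} [Field L] [NumberField L] [IsGalois ℚ L]
    (j : L →+* ℂ) (hj : ∀ i, ∀ ψ : E i →+* ℂ, ∃ φ : E i →+* L, j.comp φ = ψ) : Nondeg Φ j := by
  classical
  intro c hc hrel
  by_contra hne
  push Not at hne
  obtain ⟨i₀, φ₀, h0⟩ := hne
  let V : Submodule ℚ (Emb E → ℚ) :=
    { carrier := {f | Anti f ∧ ∀ τ : ℂ ≃+* ℂ, ∑ x, f x * (sgn Φ (gal τ x) : ℚ) = 0}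
      zero_mem' := ⟨fun x => by simp, fun τ => by simp⟩
      add_mem' := by
        rintro a b ⟨h1, h2⟩ ⟨h1', h2'⟩
        refine ⟨fun x => by rw [Pi.add_apply, Pi.add_apply, h1 x, h1' x]; ring, fun τ => ?_⟩
        simp only [Pi.add_apply, add_mul, Finset.sum_add_distrib, h2 τ, h2' τ, add_zero]
      smul_mem' := by
        rintro q a ⟨h1, h2⟩
        refine ⟨fun x => by rw [Pi.smul_apply, Pi.smul_apply, h1 x, smul_neg], fun τ => ?_⟩
        simp only [Pi.smul_apply, smul_eq_mul, mul_assoc, ← Finset.mul_sum, h2 τ, mul_zero] }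
  have hVs : Stable V := by
    rintro f ⟨h1, h2⟩ σ
    refine ⟨fun x => ?_, fun τ => ?_⟩
    · change f (gal σ (bar x)) = -f (gal σ x)
      rw [gal_bar, h1]
    · rw [← h2 (σ.symm.trans τ)]
      refine Fintype.sum_equiv (galE σ) _ _ fun x => ?_
      change f (gal σ x) * (sgn Φ (gal τ x) : ℚ) =
        f (gal σ x) * (sgn Φ (gal (σ.symm.trans τ) (gal σ x)) : ℚ)
      have h6 : gal (σ.symm.trans τ) (gal σ x) = gal τ x := by
        have h7 : gal (σ.symm.trans τ) (gal σ x) = gal τ (gal σ.symm (gal σ x)) := rfl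
        rw [h7, symm_gal]
      rw [h6]
  -- the vector `c` gives an element of `V`
  let em : ∀ i, (E i →+* L) ≃ (E i →+* ℂ) := fun i => embEquiv j (hj i)
  let f : Emb E → ℚ := fun x => (c x.1 ((em x.1).symm x.2) : ℚ)
  have hem : ∀ i (φ : E i →+* L), em i φ = j.comp φ := fun i φ => rfl
  have hf : f ∈ V := by
    refine ⟨fun x => ?_, fun τ => ?_⟩
    · obtain ⟨i, ψ⟩ := x
      obtain ⟨φ, rfl⟩ := (em i).surjective ψ
      have h1 : ComplexEmbedding.conjugate (em i φ) = em i (cbar φ) := (comp_cbar j φ).symm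
      change ((c i ((em i).symm (ComplexEmbedding.conjugate (em i φ))) : ℤ) : ℚ) =
        -((c i ((em i).symm (em i φ)) : ℤ) : ℚ)
      rw [h1, Equiv.symm_apply_apply, Equiv.symm_apply_apply, hc i φ, Int.cast_neg]
    · obtain ⟨σ, hσ⟩ := ComplexEmbedding.exists_comp_symm_eq_of_comp_eq (k := ℚ) j
        ((τ : ℂ →+* ℂ).comp j) (Subsingleton.elim _ _)
      have h1 := hrel σ.symm
      have h2 : ∑ x, f x * (sgn Φ (gal τ x) : ℚ) = ((∑ i, ∑ φ, c i φ *
          (if j.comp (σ.symm • φ) ∈ Φ i then (1 : ℤ) else -1) : ℤ) : ℚ) := by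
        rw [Fintype.sum_sigma]
        push_cast
        refine Finset.sum_congr rfl fun i _ => ?_
        refine (Fintype.sum_equiv (em i) _ _ fun φ => ?_).symm
        change _ = ((c i ((em i).symm (em i φ)) : ℤ) : ℚ) *
          ((if (τ : ℂ →+* ℂ).comp (em i φ) ∈ Φ i then (1 : ℤ) else -1 : ℤ) : ℚ)
        rw [Equiv.symm_apply_apply]
        have h3 : (τ : ℂ →+* ℂ).comp (em i φ) = j.comp (σ.symm • φ) := by
          ext z
          exact (RingHom.congr_fun hσ (φ z)).symm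
        rw [h3]
        push_cast
        rfl
      rw [h2, h1, Int.cast_zero]
  have hV0 : V ≠ ⊥ := by
    intro h
    rw [h, Submodule.mem_bot] at hf
    have h1 := congrFun hf ⟨i₀, em i₀ φ₀⟩
    have h2 : ((c i₀ ((em i₀).symm (em i₀ φ₀)) : ℤ) : ℚ) = 0 := h1
    rw [Equiv.symm_apply_apply] at h2
    exact h0 (by exact_mod_cast h2)
  obtain ⟨i, hi⟩ := hmf V (fun f hf => hf.1) hVs hV0
  obtain ⟨-, h1⟩ := hi (fun x => if x.1 = i then (sgn Φ x : ℚ) else 0) (fun x => by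
    change (if x.1 = i then (sgn Φ (bar x) : ℚ) else 0) = -(if x.1 = i then (sgn Φ x : ℚ) else 0)
    by_cases h : x.1 = i
    · rw [if_pos h, if_pos h, sgn_bar hΦ, Int.cast_neg]
    · rw [if_neg h, if_neg h, neg_zero]) (fun x hx => if_neg hx)
  have h2 := h1 (RingEquiv.refl ℂ)
  have h3 : ∀ x : Emb E, (if x.1 = i then (sgn Φ x : ℚ) else 0) *
      (sgn Φ (gal (RingEquiv.refl ℂ) x) : ℚ) = if x.1 = i then 1 else 0 := by
    intro x
    have h4 : gal (RingEquiv.refl ℂ) x = x := rfl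
    rw [h4]
    by_cases h : x.1 = i
    · rw [if_pos h, if_pos h]
      unfold sgn
      split_ifs <;> norm_num
    · rw [if_neg h, if_neg h, zero_mul]
  rw [Finset.sum_congr rfl (fun x _ => h3 x), Finset.sum_boole] at h2
  have h4 : (Finset.univ.filter (fun x : Emb E => x.1 = i)).card = 0 := by exact_mod_cast h2
  obtain ⟨φ⟩ : Nonempty (E i →+* ℂ) := inferInstance
  have h5 : (⟨i, φ⟩ : Emb E) ∈ Finset.univ.filter (fun x : Emb E => x.1 = i) :=
    Finset.mem_filter.2 ⟨Finset.mem_univ _, rfl⟩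
  rw [Finset.card_eq_zero.1 h4] at h5
  exact absurd h5 (Finset.notMem_empty _)

variable {J : Type} [Fintype J] (t : J → ι)

include hΦ in
/-- **Main theorem of this file.** -/
theorem main (hmf : MultFree E) (p : Emb E → ℂ) (hp : ∀ x, p x ≠ 0)
    (hleg : ∀ x, IsAlgebraic ℚ ((p x * p (bar x)) / (2 * Real.pi * Complex.I)))
    (htr : ∀ i, ∃ φ : E i →+* ℂ, ¬ IsAlgebraic ℚ (p ⟨i, φ⟩ / p (bar ⟨i, φ⟩)))
    (k : ℕ) (f : (∀ a, E (t a)) [⋀^Fin k × Fin 2]→ₗ[ℚ] ℚ)
    (b : (Fin k × Fin 2 → XX E t ℂ) → ℂ) (hb : ∀ I, IsAlgebraic ℚ (b I))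
    (hf : ∀ v : Fin k × Fin 2 → (∀ a, E (t a)), (2 * Real.pi * Complex.I) ^ k * ((f v : ℚ) : ℂ) =
      ∑ I, b I * ∏ l, (p ⟨t (I l).1, (I l).2⟩ * (I l).2 (v l (I l).1))) :
    f ∈ Submodule.span ℚ {g : (∀ a, E (t a)) [⋀^Fin k × Fin 2]→ₗ[ℚ] ℚ |
      ∃ B : Fin k → (∀ a, E (t a)) [⋀^Fin 2]→ₗ[ℚ] ℚ, (∀ s, IsHodge (per Φ t) (B s)) ∧
        ∀ v, g v = ∑ σ : Equiv.Perm (Fin k × Fin 2), (Equiv.Perm.sign σ : ℤ) *
          ∏ s, B s ![v (σ (s, 0)), v (σ (s, 1))]} := by
  classical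
  have hpi : (2 * Real.pi * Complex.I : ℂ) ≠ 0 := Complex.two_pi_I_ne_zero
  have hpik : ((2 * Real.pi * Complex.I : ℂ) ^ k) ≠ 0 := pow_ne_zero _ hpi
  obtain ⟨a, ha1, ha2, ha3⟩ := exists_coeff t f.toMultilinearMap
  let w : XX E t ℂ → Emb E := fun y => ⟨t y.1, y.2⟩
  have hab' : (fun I => (2 * Real.pi * Complex.I) ^ k * a I) =
      fun I => b I * ∏ l, p (w (I l)) := by
    refine coeff_unique t _ _ fun v => ?_
    have h1 := hf v
    have h0 : ((f v : ℚ) : ℂ) = ∑ I, a I * ∏ l, chi E t ℂ (v l) (I l) := ha2 v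
    rw [h0, Finset.mul_sum] at h1
    have h2 : ∀ I : Fin k × Fin 2 → XX E t ℂ,
        (2 * Real.pi * Complex.I) ^ k * a I * ∏ l, chi E t ℂ (v l) (I l) =
        (2 * Real.pi * Complex.I) ^ k * (a I * ∏ l, chi E t ℂ (v l) (I l)) :=
      fun I => mul_assoc _ _ _
    rw [Finset.sum_congr rfl (fun I _ => h2 I), h1]
    refine Finset.sum_congr rfl fun I _ => ?_
    rw [Finset.prod_mul_distrib, ← mul_assoc]
    rfl
  have halg : ∀ I, a I ≠ 0 → IsAlgebraic ℚ ((∏ l, p (w (I l))) /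
      (2 * Real.pi * Complex.I) ^ k) := by
    intro I hI
    have h1 : (2 * Real.pi * Complex.I) ^ k * a I = b I * ∏ l, p (w (I l)) := congrFun hab' I
    have hb0 : b I ≠ 0 := by
      intro h
      rw [h, zero_mul] at h1
      exact hI ((mul_eq_zero.1 h1).resolve_left hpik)
    have h2 : (∏ l, p (w (I l))) / (2 * Real.pi * Complex.I) ^ k = a I * (b I)⁻¹ := by
      field_simp
      linear_combination -h1
    rw [h2]
    exact (ha1 I).mul (hb I).inv
  have halg' : ∀ I, a I ≠ 0 → ∀ σ : ℂ ≃+* ℂ,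
      IsAlgebraic ℚ ((∏ l, p (gal σ (w (I l)))) / (2 * Real.pi * Complex.I) ^ k) := by
    intro I hI σ
    exact halg (fun l => act t σ (I l)) (ha3 I σ hI)
  have hbal : ∀ I, a I ≠ 0 →
      ∑ l, (if (I l).2 ∈ Φ (t (I l).1) then (1 : ℤ) else -1) = 0 := by
    intro I hI
    have h1 := symmetric_word hmf p hp hleg htr k (by
      rw [Fintype.card_prod, Fintype.card_fin, Fintype.card_fin, mul_comm])
      (fun l => w (I l)) (halg' I hI) (sgn Φ)
    have h2 : ∀ l, sgn Φ (w (I l)) - sgn Φ (bar (w (I l))) =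
        2 * (if (I l).2 ∈ Φ (t (I l).1) then (1 : ℤ) else -1) := by
      intro l
      rw [sgn_bar hΦ]
      have h3 : sgn Φ (w (I l)) = if (I l).2 ∈ Φ (t (I l).1) then (1 : ℤ) else -1 := rfl
      rw [h3]
      ring
    rw [Finset.sum_congr rfl (fun l _ => h2 l), ← Finset.mul_sum] at h1
    linarith
  have hH : IsHodge (per Φ t) f := hodge_of_balanced t hΦ f a ha2 hbal
  obtain ⟨L, hNF, hG, j, hj⟩ := exists_galois E
  exact hodge_of_nondeg hΦ t j hj (nondeg_of_multFree hΦ hmf j hj) f hH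

end

end Pool.Agent.H868R3.GPI
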