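import Mathlib
import Pool.Agent.H868R3.GPI.Irr
import Pool.Agent.H204R3.CM.Match

/-!
# De Rham-Betti classes on motives of rank one over a CM field
-/

set_option linter.unusedSectionVars false
set_option linter.unusedVariables false

namespace Pool.Agent.H868R3.GPI

open NumberField Module Pool.Agent.H204R3.CM Pool.Agent.H868R3.GPC

noncomputable section

/-- The Galois group of the Galois closure of `E` contains an abelian subgroup which is transitive
on the complex embeddings of `E`. -/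
def AbTrans (E : Type) [Field E] : Prop :=
  ∃ H : Subgroup (ℂ ≃+* ℂ),
    (∀ σ ∈ H, ∀ τ ∈ H, ∀ (φ : E →+* ℂ) (x : E), σ (τ (φ x)) = τ (σ (φ x))) ∧
    ∀ φ ψ : E →+* ℂ, ∃ σ ∈ H, (σ : ℂ →+* ℂ).comp φ = ψ

variable {E : Type} [Field E] [NumberField E] [IsCMField E]

/-- The embeddings of a single field. -/
abbrev em (φ : E →+* ℂ) : Emb (fun _ : Unit => E) := ⟨(), φ⟩

theorem emb_eq (x : Emb (fun _ : Unit => E)) : x = em x.2 := rfl

/-- The permutation of the embeddings. -/
def permOf : (ℂ ≃+* ℂ) →* Equiv.Perm (E →+* ℂ) where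
  toFun σ :=
    { toFun := fun φ => (σ : ℂ →+* ℂ).comp φ
      invFun := fun φ => (σ.symm : ℂ →+* ℂ).comp φ
      left_inv := fun φ => by
        ext z
        exact σ.symm_apply_apply _
      right_inv := fun φ => by
        ext z
        exact σ.apply_symm_apply _ }
  map_one' := rfl
  map_mul' _ _ := rfl

theorem permOf_apply (σ : ℂ ≃+* ℂ) (φ : E →+* ℂ) :
    (permOf σ : Equiv.Perm (E →+* ℂ)) φ = (σ : ℂ →+* ℂ).comp φ := rfl

/-- Small vectors for fields with an abelian transitive group. -/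
theorem small_of_abTrans (hE : AbTrans E) (M : Submodule ℚ (Emb (fun _ : Unit => E) → ℚ))
    (hanti : ∀ f ∈ M, Anti f) (hst : Stable M) (hne : M ≠ ⊥) :
    ∃ f ∈ M, f ≠ 0 ∧ ∀ x, f x = 0 ∨ f x = 1 ∨ f x = -1 := by
  classical
  obtain ⟨H, hH1, hH2⟩ := hE
  let G : Subgroup (Equiv.Perm (E →+* ℂ)) := H.map permOf
  have hcomm : ∀ a b : G, a * b = b * a := by
    rintro ⟨_, σ, hσ, rfl⟩ ⟨_, τ, hτ, rfl⟩
    apply Subtype.ext
    ext φ x
    exact hH1 σ hσ τ hτ φ x
  let _ : CommGroup G := { (inferInstance : Group G) with mul_comm := hcomm }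
  have hfin : Finite G := inferInstance
  obtain ⟨φ₀⟩ : Nonempty (E →+* ℂ) := inferInstance
  have htr : ∀ ψ, ∃ g : G, g.1 φ₀ = ψ := by
    intro ψ
    obtain ⟨σ, hσ, h⟩ := hH2 φ₀ ψ
    exact ⟨⟨permOf σ, σ, hσ, rfl⟩, h⟩
  obtain ⟨c, hc⟩ := htr (ComplexEmbedding.conjugate φ₀)
  have hconj : ∀ g : G, g.1 (ComplexEmbedding.conjugate φ₀) =
      ComplexEmbedding.conjugate (g.1 φ₀) := by
    rintro ⟨_, σ, hσ, rfl⟩
    have h1 := gal_bar (E := fun _ : Unit => E) σ (em φ₀)
    exact eq_of_heq (Sigma.mk.inj_iff.1 h1).2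
  -- restriction to the group
  let r : (Emb (fun _ : Unit => E) → ℚ) →ₗ[ℚ] (G → ℚ) :=
    LinearMap.funLeft ℚ ℚ (fun g : G => em (g.1 φ₀))
  have hr : ∀ f g, r f g = f (em (g.1 φ₀)) := fun f g => rfl
  have hrinj : ∀ f, r f = 0 → f = 0 := by
    intro f h
    funext x
    obtain ⟨g, hg⟩ := htr x.2
    have h1 := congrFun h g
    rw [hr, hg] at h1
    exact h1
  have hM' : ∀ f ∈ M.map r, ∀ g : G, (fun x => f (g * x)) ∈ M.map r := by
    rintro _ ⟨f, hf, rfl⟩ ⟨_, σ, hσ, rfl⟩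
    refine ⟨fun x => f (gal σ x), hst f hf σ, ?_⟩
    funext x
    rfl
  have hanti' : ∀ f ∈ M.map r, ∀ x, f (c * x) = -f x := by
    rintro _ ⟨f, hf, rfl⟩ x
    rw [hr, hr]
    have h1 : (c * x).1 φ₀ = ComplexEmbedding.conjugate (x.1 φ₀) := by
      rw [hcomm c x]
      change x.1 (c.1 φ₀) = _
      rw [hc, hconj]
    rw [h1]
    exact hanti f hf (em (x.1 φ₀))
  have hne' : M.map r ≠ ⊥ := by
    obtain ⟨f, hf, hf0⟩ := Submodule.exists_mem_ne_zero_of_ne_bot hne
    intro h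
    have h1 : r f ∈ M.map r := ⟨f, hf, rfl⟩
    rw [h, Submodule.mem_bot] at h1
    exact hf0 (hrinj f h1)
  obtain ⟨_, ⟨f, hf, rfl⟩, h1, h2⟩ := exists_small c (M.map r) hM' hanti' hne'
  refine ⟨f, hf, fun h => h1 (by rw [h, map_zero]), fun x => ?_⟩
  obtain ⟨g, hg⟩ := htr x.2
  have h3 := h2 g
  rw [hr, hg] at h3
  exact h3

/-- The dichotomy for the relations between the periods. -/
theorem relI_dichotomy (hE : AbTrans E) (p : Emb (fun _ : Unit => E) → ℂ) (hp : ∀ x, p x ≠ 0)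
    (hno : ∀ S : Finset (E →+* ℂ), S.Nonempty → (∀ φ ∈ S, ComplexEmbedding.conjugate φ ∉ S) →
      ∃ σ : ℂ ≃+* ℂ, ¬ IsAlgebraic ℚ (∏ φ ∈ S, (p (gal σ (em φ)) / p (gal σ (bar (em φ)))))) :
    relI p hp = ⊥ := by
  classical
  by_contra hne
  obtain ⟨f, hf, hf0, hfv⟩ := small_of_abTrans hE (relI p hp) (fun f hf => hf.1)
    (relI_stable p hp) hne
  obtain ⟨hfa, N, hN, e, h2, h3⟩ := hf
  let S : Finset (E →+* ℂ) := Finset.univ.filter (fun φ => f (em φ) = 1)
  have hmem : ∀ φ, φ ∈ S ↔ f (em φ) = 1 := fun φ => by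
    simp only [S, Finset.mem_filter, Finset.mem_univ, true_and]
  have hS : S.Nonempty := by
    obtain ⟨x, hx⟩ : ∃ x, f x ≠ 0 := by
      by_contra hall
      push Not at hall
      exact hf0 (funext hall)
    rcases hfv x with h | h | h
    · exact absurd h hx
    · exact ⟨x.2, (hmem _).2 h⟩
    · refine ⟨(bar x).2, (hmem _).2 ?_⟩
      have h4 := hfa x
      rw [h, neg_neg] at h4
      exact h4
  have hSc : ∀ φ ∈ S, ComplexEmbedding.conjugate φ ∉ S := by
    intro φ hφ h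
    rw [hmem] at hφ h
    have h4 := hfa (em φ)
    change f (em (ComplexEmbedding.conjugate φ)) = _ at h4
    rw [h, hφ] at h4
    norm_num at h4
  obtain ⟨σ, hσ⟩ := hno S hS hSc
  apply hσ
  have h4 := h3 σ
  have he : ∀ x, e x = (N : ℤ) * (if f x = 1 then 1 else if f x = -1 then -1 else 0) := by
    intro x
    have h5 := h2 x
    have h6 : ((e x : ℤ) : ℚ) =
        (((N : ℤ) * (if f x = 1 then 1 else if f x = -1 then -1 else 0) : ℤ) : ℚ) := by
      rw [← h5]
      rcases hfv x with h | h | h <;> rw [h] <;> norm_num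
    exact_mod_cast h6
  have h5 : ∏ x, p (gal σ x) ^ e x =
      (∏ φ ∈ S, (p (gal σ (em φ)) / p (gal σ (bar (em φ))))) ^ N := by
    have h6 : ∀ x, p (gal σ x) ^ e x =
        ((if f x = 1 then p (gal σ x) else 1) * (if f x = -1 then (p (gal σ x))⁻¹ else 1)) ^ N := by
      intro x
      rw [he x, mul_comm, zpow_mul, zpow_natCast]
      congr 1
      rcases hfv x with h | h | h
      · rw [h]; norm_num
      · rw [h]; norm_num
      · rw [h]; norm_num
    rw [Finset.prod_congr rfl (fun x _ => h6 x), Finset.prod_pow, Finset.prod_mul_distrib]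
    congr 1
    rw [Finset.prod_div_distrib, div_eq_mul_inv, ← Finset.prod_inv_distrib]
    congr 1
    · rw [Fintype.prod_sigma, Fintype.prod_unique, ← Finset.prod_filter]
    · have h7 : ∏ x, (if f x = -1 then (p (gal σ x))⁻¹ else 1) =
          ∏ x, (if f x = 1 then (p (gal σ (bar x)))⁻¹ else 1) := by
        refine Fintype.prod_equiv ⟨bar, bar, bar_bar, bar_bar⟩ _ _ fun x => ?_
        change _ = if f (bar x) = 1 then (p (gal σ (bar (bar x))))⁻¹ else 1
        rw [bar_bar, hfa x]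
        by_cases h : f x = -1
        · rw [if_pos h, if_pos (by rw [h]; norm_num)]
        · rw [if_neg h, if_neg (fun h8 => h (by linarith))]
      rw [h7, Fintype.prod_sigma, Fintype.prod_unique, ← Finset.prod_filter]
  rw [h5] at h4
  exact h4.of_pow (Nat.pos_of_ne_zero hN)

end

end Pool.Agent.H868R3.GPI
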