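import Mathlib
import Pool.Agent.H868R3.GPI.K3

/-!
# De Rham-Betti classes on motives of rank one over a CM field: the pairings
-/

set_option linter.unusedSectionVars false
set_option linter.unusedVariables false

namespace Pool.Agent.H868R3.GPI

open NumberField Module Pool.Agent.H204R3.CM Pool.Agent.H868R3.GPC

noncomputable section

variable {E : Type} [Field E] [NumberField E] [IsCMField E] {J : Type} [Fintype J]

/-- The products of the pairings `Tr (α x conj y)`. -/
def pairForms (E : Type) [Field E] [NumberField E] [IsCMField E] (J κ : Type) :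
    Set ((κ → J → E) → ℚ) :=
  {g | ∃ (m : ℕ) (e : Fin m × Fin 2 ≃ κ) (α : Fin m → E) (i i' : Fin m → J),
    g = fun v => ∏ s, Algebra.trace ℚ E
      (α s * (v (e (s, 0)) (i s) * IsCMField.complexConj E (v (e (s, 1)) (i' s))))}

theorem pair_expandC (φ : E →+* ℂ) :
    ∃ (n : ℕ) (a : Fin n → ℂ) (b : Fin n → E), ∀ x y : E,
      φ x * (ComplexEmbedding.conjugate φ) y =
        ∑ r, a r * ((Algebra.trace ℚ E (b r * (x * IsCMField.complexConj E y)) : ℚ) : ℂ) := by
  classical
  have hB := traceForm_nondegenerate ℚ E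
  let b := Module.finBasis ℚ E
  let b' := (Algebra.traceForm ℚ E).dualBasis hB b
  refine ⟨finrank ℚ E, fun r => φ (b' r), fun r => b r, fun x y => ?_⟩
  have h0 : (ComplexEmbedding.conjugate φ) y = φ (IsCMField.complexConj E y) := by
    rw [IsCMField.complexEmbedding_complexConj E φ y, ComplexEmbedding.conjugate_coe_eq]
  rw [h0, ← map_mul]
  set z := x * IsCMField.complexConj E y with hz
  have h1 : z = ∑ r, (b'.repr z r) • b' r := (b'.sum_repr z).symm
  have h2 : ∀ r, b'.repr z r = Algebra.trace ℚ E (b r * z) := by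
    intro r
    have h3 := LinearMap.BilinForm.dualBasis_repr_apply (B := Algebra.traceForm ℚ E) hB b z r
    rw [h3, Algebra.traceForm_apply, mul_comm]
  conv_lhs => rw [h1]
  rw [map_sum]
  refine Finset.sum_congr rfl fun r _ => ?_
  rw [h2 r, Rat.smul_def, map_mul, map_ratCast, mul_comm]

/-- Words whose period monomials are algebraic are symmetric. -/
theorem symmetric_word0 (p : Emb (fun _ : Unit => E) → ℂ) (hp : ∀ x, p x ≠ 0)
    (hbot : relI p hp = ⊥) (hpol : ∀ x, IsAlgebraic ℚ (p x * p (bar x)))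
    {κ : Type} [Fintype κ] (x : κ → Emb (fun _ : Unit => E))
    (halg : ∀ σ : ℂ ≃+* ℂ, IsAlgebraic ℚ (∏ l, p (gal σ (x l))))
    (g : Emb (fun _ : Unit => E) → ℤ) :
    ∑ l, (g (x l) - g (bar (x l))) = 0 := by
  classical
  let e : Emb (fun _ : Unit => E) → ℤ :=
    fun y => ∑ l, ((if y = x l then 1 else 0) - (if y = bar (x l) then 1 else 0))
  have hbar : ∀ y l, (bar y = x l ↔ y = bar (x l)) := by
    intro y l
    constructor
    · intro h
      rw [← h, bar_bar]
    · rintro rfl
      rw [bar_bar]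
  have hbar' : ∀ y l, (bar y = bar (x l) ↔ y = x l) := by
    intro y l
    constructor
    · intro h
      rw [← bar_bar y, h, bar_bar]
    · rintro rfl
      rfl
  have hmem : (fun y => (e y : ℚ)) ∈ relI p hp := by
    refine ⟨fun y => ?_, 1, one_ne_zero, e, fun y => by rw [Nat.cast_one, one_mul], fun σ => ?_⟩
    · change ((e (bar y) : ℤ) : ℚ) = -((e y : ℤ) : ℚ)
      rw [← Int.cast_neg]
      congr 1
      simp only [e, hbar, hbar', ← Finset.sum_neg_distrib, neg_sub]
    · have h1 : ∏ y, p (gal σ y) ^ e y =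
          ∏ l, (p (gal σ (x l)) * (p (gal σ (bar (x l))))⁻¹) := by
        have h2 : ∀ y, p (gal σ y) ^ e y =
            ∏ l, ((if y = x l then p (gal σ (x l)) else 1) *
              (if y = bar (x l) then (p (gal σ (bar (x l))))⁻¹ else 1)) := by
          intro y
          simp only [e]
          rw [zpow_sum (hp _)]
          refine Finset.prod_congr rfl fun l _ => ?_
          rw [zpow_sub₀ (hp _), div_eq_mul_inv]
          congr 1
          · by_cases h : y = x l
            · rw [if_pos h, if_pos h, zpow_one, h]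
            · rw [if_neg h, if_neg h, zpow_zero]
          · by_cases h : y = bar (x l)
            · rw [if_pos h, if_pos h, zpow_one, h]
            · rw [if_neg h, if_neg h, zpow_zero, inv_one]
        rw [Finset.prod_congr rfl (fun y _ => h2 y), Finset.prod_comm]
        refine Finset.prod_congr rfl fun l _ => ?_
        rw [Finset.prod_mul_distrib, Finset.prod_ite_eq', Finset.prod_ite_eq',
          if_pos (Finset.mem_univ _), if_pos (Finset.mem_univ _)]
      have h2 : ∏ l, (p (gal σ (x l)) * (p (gal σ (bar (x l))))⁻¹) =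
          (∏ l, p (gal σ (x l))) ^ 2 *
            (∏ l, (p (gal σ (x l)) * p (bar (gal σ (x l)))))⁻¹ := by
        rw [Finset.prod_mul_distrib, Finset.prod_mul_distrib, Finset.prod_inv_distrib]
        have h3 : ∏ l, p (gal σ (x l)) ≠ 0 := Finset.prod_ne_zero_iff.2 fun l _ => hp _
        have h4 : ∏ l, p (bar (gal σ (x l))) ≠ 0 := Finset.prod_ne_zero_iff.2 fun l _ => hp _
        have h5 : ∏ l, p (gal σ (bar (x l))) = ∏ l, p (bar (gal σ (x l))) :=
          Finset.prod_congr rfl fun l _ => by rw [gal_bar]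
        rw [h5]
        field_simp
      rw [h1, h2]
      exact ((halg σ).pow 2).mul (isAlg_prod _ _ fun l _ => hpol _).inv
  rw [hbot, Submodule.mem_bot] at hmem
  have he : ∀ y, e y = 0 := by
    intro y
    have h1 := congrFun hmem y
    have h2 : ((e y : ℤ) : ℚ) = 0 := h1
    exact_mod_cast h2
  have h1 : ∑ y, e y * g y = ∑ l, (g (x l) - g (bar (x l))) := by
    simp only [e, Finset.sum_mul]
    rw [Finset.sum_comm]
    refine Finset.sum_congr rfl fun l _ => ?_
    simp only [sub_mul, ite_mul, one_mul, zero_mul, Finset.sum_sub_distrib]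
    rw [Finset.sum_ite_eq', Finset.sum_ite_eq', if_pos (Finset.mem_univ _),
      if_pos (Finset.mem_univ _)]
  rw [← h1]
  simp only [he, zero_mul, Finset.sum_const_zero]

/-- Symmetric words can be matched. -/
theorem matching_of_symm {κ : Type} [Fintype κ] [DecidableEq κ]
    (x : κ → Emb (fun _ : Unit => E))
    (h : ∀ g : Emb (fun _ : Unit => E) → ℤ, ∑ l, (g (x l) - g (bar (x l))) = 0) :
    ∃ (m : ℕ) (e : Fin m × Fin 2 ≃ κ), ∀ s, x (e (s, 1)) = bar (x (e (s, 0))) := by
  classical
  obtain ⟨Ψ, hΨ⟩ := Pool.Agent.H925R2.exists_isHalf (R := Emb (fun _ : Unit => E))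
    (inv := bar) bar_bar bar_ne
  have hcard : Fintype.card κ = 2 * (Finset.univ.filter (fun l => x l ∈ Ψ)).card := by
    have h1 := h (fun y => if y ∈ Ψ then 1 else 0)
    have h2 : ∀ l, ((if x l ∈ Ψ then (1 : ℤ) else 0) - (if bar (x l) ∈ Ψ then 1 else 0)) =
        2 * (if x l ∈ Ψ then (1 : ℤ) else 0) - 1 := by
      intro l
      have h3 := hΨ (x l)
      by_cases h4 : x l ∈ Ψ
      · rw [if_pos h4, if_neg (h3.1 h4)]
        norm_num
      · have h5 : bar (x l) ∈ Ψ := by
          by_contra h6
          exact h4 (h3.2 h6)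
        rw [if_neg h4, if_pos h5]
        norm_num
    rw [Finset.sum_congr rfl (fun l _ => h2 l), Finset.sum_sub_distrib, ← Finset.mul_sum,
      Finset.sum_boole, Finset.sum_const, Finset.card_univ] at h1
    simp only [smul_eq_mul, mul_one, nsmul_eq_mul] at h1
    have h3 : (Fintype.card κ : ℤ) =
        2 * ((Finset.univ.filter (fun l => x l ∈ Ψ)).card : ℤ) := by linarith
    exact_mod_cast h3
  have hcount : ∀ y, (Finset.univ.filter (fun l => x l = y)).card =
      (Finset.univ.filter (fun l => x l = bar y)).card := by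
    intro y
    have h1 := h (fun z => if z = y then 1 else 0)
    rw [Finset.sum_sub_distrib, Finset.sum_boole, Finset.sum_boole] at h1
    have h2 : (Finset.univ.filter (fun l => bar (x l) = y)) =
        (Finset.univ.filter (fun l => x l = bar y)) := by
      ext l
      simp only [Finset.mem_filter, Finset.mem_univ, true_and]
      constructor
      · intro h3
        rw [← h3, bar_bar]
      · intro h3
        rw [h3, bar_bar]
    rw [h2] at h1
    have h3 : ((Finset.univ.filter (fun l => x l = y)).card : ℤ) =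
        ((Finset.univ.filter (fun l => x l = bar y)).card : ℤ) := by linarith
    exact_mod_cast h3
  obtain ⟨e, he⟩ := exists_matching bar_bar bar_ne x hcount _ hcard
  exact ⟨_, e, he⟩

/-- **Main theorem of this file.** -/
theorem mainK3 (p : Emb (fun _ : Unit => E) → ℂ) (hp : ∀ x, p x ≠ 0)
    (hbot : relI p hp = ⊥) (hpol : ∀ x, IsAlgebraic ℚ (p x * p (bar x)))
    {κ : Type} [Fintype κ] [DecidableEq κ]
    (f : MultilinearMap ℚ (fun _ : κ => J → E) ℚ)
    (b : (κ → (Σ _ : J, (E →+* ℂ))) → ℂ) (hb : ∀ I, IsAlgebraic ℚ (b I))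
    (hf : ∀ v : κ → J → E, ((f v : ℚ) : ℂ) =
      ∑ I, b I * ∏ l, (p (em (I l).2) * (I l).2 (v l (I l).1))) :
    (fun v => f v) ∈ Submodule.span ℚ (pairForms E J κ) := by
  classical
  let t : J → Unit := fun _ => ()
  obtain ⟨a, ha1, ha2, ha3⟩ := exists_coeff (E := fun _ : Unit => E) t f
  have hab' : a = fun I => b I * ∏ l, p (em (I l).2) := by
    refine coeff_unique (E := fun _ : Unit => E) t _ _ fun v => ?_
    rw [← ha2 v, hf v]
    refine Finset.sum_congr rfl fun I _ => ?_
    rw [Finset.prod_mul_distrib, ← mul_assoc]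
    rfl
  have halg : ∀ I, a I ≠ 0 → IsAlgebraic ℚ (∏ l, p (em (I l).2)) := by
    intro I hI
    have h1 : a I = b I * ∏ l, p (em (I l).2) := congrFun hab' I
    have hb0 : b I ≠ 0 := by
      intro h
      rw [h, zero_mul] at h1
      exact hI h1
    have h2 : (∏ l, p (em (I l).2)) = a I * (b I)⁻¹ := by
      rw [h1]
      field_simp
    rw [h2]
    exact (ha1 I).mul (hb I).inv
  have hmono : ∀ I, a I ≠ 0 →
      (fun v : κ → J → E => ∏ l, chi (fun _ : Unit => E) t ℂ (v l) (I l)) ∈
        Submodule.span ℂ {g : (κ → J → E) → ℂ |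
          ∃ s ∈ pairForms E J κ, g = fun x => ((s x : ℚ) : ℂ)} := by
    intro I hI
    have h1 : ∀ σ : ℂ ≃+* ℂ, IsAlgebraic ℚ (∏ l, p (gal σ (em (I l).2))) := fun σ =>
      halg (fun l => act t σ (I l)) (ha3 I σ hI)
    obtain ⟨m, e, he⟩ := matching_of_symm (fun l => em (I l).2)
      (fun g => symmetric_word0 p hp hbot hpol (fun l => em (I l).2) h1 g)
    have h2 := fun s : Fin m => pair_expandC (I (e (s, 0))).2
    choose n c β hv using h2
    have h3 : ∀ s, (I (e (s, 1))).2 = ComplexEmbedding.conjugate (I (e (s, 0))).2 := fun s =>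
      eq_of_heq (Sigma.mk.inj_iff.1 (he s)).2
    have h4 : (fun v : κ → J → E => ∏ l, chi (fun _ : Unit => E) t ℂ (v l) (I l)) =
        ∑ ρ : ∀ s, Fin (n s), (∏ s, c s (ρ s)) • (fun v : κ → J → E =>
          ((∏ s, Algebra.trace ℚ E (β s (ρ s) * (v (e (s, 0)) (I (e (s, 0))).1 *
            IsCMField.complexConj E (v (e (s, 1)) (I (e (s, 1))).1))) : ℚ) : ℂ)) := by
      funext v
      rw [Finset.sum_apply, ← Equiv.prod_comp e, Fintype.prod_prod_type]
      simp only [Fin.prod_univ_two]
      have h5 : ∀ s, chi (fun _ : Unit => E) t ℂ (v (e (s, 0))) (I (e (s, 0))) *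
          chi (fun _ : Unit => E) t ℂ (v (e (s, 1))) (I (e (s, 1))) =
          ∑ r, c s r * ((Algebra.trace ℚ E (β s r * (v (e (s, 0)) (I (e (s, 0))).1 *
            IsCMField.complexConj E (v (e (s, 1)) (I (e (s, 1))).1))) : ℚ) : ℂ) := by
        intro s
        rw [← hv s]
        change (I (e (s, 0))).2 _ * (I (e (s, 1))).2 _ = _
        rw [h3 s]
      rw [Finset.prod_congr rfl (fun s _ => h5 s), Finset.prod_univ_sum, Fintype.piFinset_univ]
      refine Finset.sum_congr rfl fun ρ _ => ?_
      rw [Finset.prod_mul_distrib, Pi.smul_apply, smul_eq_mul, Rat.cast_prod]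
    rw [h4]
    refine Submodule.sum_mem _ fun ρ _ => Submodule.smul_mem _ _ (Submodule.subset_span ?_)
    exact ⟨_, ⟨m, e, fun s => β s (ρ s), fun s => (I (e (s, 0))).1,
      fun s => (I (e (s, 1))).1, rfl⟩, rfl⟩
  have hL : (fun v : κ → J → E => ((f v : ℚ) : ℂ)) ∈
      Submodule.span ℂ {g : (κ → J → E) → ℂ |
        ∃ s ∈ pairForms E J κ, g = fun x => ((s x : ℚ) : ℂ)} := by
    have h1 : (fun v : κ → J → E => ((f v : ℚ) : ℂ)) =
        ∑ I : κ → XX (fun _ : Unit => E) t ℂ, a I •
          (fun v : κ → J → E => ∏ l, chi (fun _ : Unit => E) t ℂ (v l) (I l)) := by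
      funext v
      rw [Finset.sum_apply]
      exact ha2 v
    rw [h1]
    refine Submodule.sum_mem _ fun I _ => ?_
    by_cases hI : a I = 0
    · rw [hI, zero_smul]
      exact Submodule.zero_mem _
    · exact Submodule.smul_mem _ _ (hmono I hI)
  exact span_descent _ _ hL

end

end Pool.Agent.H868R3.GPI
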